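import Pool.Agent.D0H30.DE.Pencil

/-!
# Counting the values of double exponentials which are linear forms in logarithms
-/

set_option autoImplicit false

namespace Pool.Agent.D0H30.DE

open Pool.Agent.H301R2.SSE Pool.Agent.H301R2.Nine Polynomial

theorem exp_quot (w a b : ℂ) :
    Complex.exp (w * a) / Complex.exp (w * b) = Complex.exp (w * (a - b)) := by
  rw [← Complex.exp_sub]
  congr 1
  ring

/-- the structure theorem, rational coefficients -/
theorem struct_exp (v w h : ℂ) (hv : v ≠ 0) (hx : Transcendental ℚ (Complex.exp (w * h))) {k : ℕ}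
    (β : Fin (k + 1) → ℂ) (h1 : ∀ j, v * Complex.exp (w * β j) ∈ Lt)
    (h2 : ∀ j, v * Complex.exp (w * (β j + h)) ∈ Lt)
    (hd : ∀ i j, i ≠ j → Transcendental ℚ (Complex.exp (w * (β i - β j)))) (c : Fin k → ℚ)
    (hc : IsAlgebraic ℚ (Complex.exp (w * ∑ j, (c j : ℂ) * (β j.succ - β 0)))) :
    ∀ j, c j = 0 := by
  classical
  obtain ⟨D, hD0, e, he⟩ : ∃ D : ℕ, D ≠ 0 ∧ ∃ e : Fin k → ℤ, ∀ j, (D : ℚ) * c j = e j := by
    refine ⟨∏ j, (c j).den, Finset.prod_ne_zero_iff.mpr fun j _ => (c j).den_nz, ?_⟩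
    have h1 : ∀ j, ∃ m : ℕ, ∏ j, (c j).den = (c j).den * m := fun j =>
      Finset.dvd_prod_of_mem (fun j => (c j).den) (Finset.mem_univ j)
    choose m hm using h1
    refine ⟨fun j => (m j : ℤ) * (c j).num, fun j => ?_⟩
    rw [hm j]
    have h2 := Rat.mul_den_eq_num (c j)
    push_cast
    rw [← h2]
    ring
  have hp := pencil v hv (Complex.exp (w * h)) hx (fun j => Complex.exp (w * β j))
    (fun j => Complex.exp_ne_zero _) h1 (fun j => by
      have := h2 j
      rwa [mul_add, Complex.exp_add, mul_comm (Complex.exp (w * β j))] at this)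
    (fun i j hij => by
      have := hd i j hij
      simpa only [exp_quot] using this) e (by
      have h3 : ∏ j : Fin k, (Complex.exp (w * β j.succ) / Complex.exp (w * β 0)) ^ e j =
          Complex.exp (w * ∑ j, (c j : ℂ) * (β j.succ - β 0)) ^ D := by
        rw [← Complex.exp_nat_mul, Finset.mul_sum, Finset.mul_sum, Complex.exp_sum]
        apply Finset.prod_congr rfl
        intro j _
        rw [exp_quot, ← Complex.exp_int_mul]
        congr 1
        have h4 : ((e j : ℤ) : ℂ) = (D : ℂ) * (c j : ℂ) := by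
          have := congrArg (fun q : ℚ => (q : ℂ)) (he j)
          push_cast at this
          exact this.symm
        rw [h4]
        ring
      rw [h3]
      exact hc.pow D)
  intro j
  have h3 := he j
  rw [hp j] at h3
  push_cast at h3
  exact (mul_eq_zero.mp h3).resolve_left (by exact_mod_cast hD0)

/-- few pairs with the same difference -/
theorem sq_le {G : Type*} [AddCommGroup G] [DecidableEq G] (S : Finset G) (M : ℕ)
    (hM : ∀ h : G, h ≠ 0 → (S.filter (fun g => g + h ∈ S)).card ≤ M) (T : Finset G)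
    (hT : ∀ g ∈ S, ∀ g' ∈ S, g' - g ∈ T) (h0T : (0 : G) ∈ T) :
    S.card ^ 2 ≤ S.card + M * (T.card - 1) := by
  classical
  have h1 : (S ×ˢ S).card = ∑ h ∈ T, ((S ×ˢ S).filter (fun p => p.2 - p.1 = h)).card :=
    Finset.card_eq_sum_card_fiberwise (fun p hp => by
      rw [Finset.mem_coe, Finset.mem_product] at hp
      exact hT _ hp.1 _ hp.2)
  have h2 : ∀ h, ((S ×ˢ S).filter (fun p => p.2 - p.1 = h)).card ≤
      (S.filter (fun g => g + h ∈ S)).card := by
    intro h
    refine Finset.card_le_card_of_injOn (fun p => p.1) ?_ ?_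
    · intro p hp
      simp only [Finset.coe_filter, Finset.mem_product, Set.mem_ofPred_eq] at hp ⊢
      refine ⟨hp.1.1, ?_⟩
      rw [← hp.2]
      have : p.1 + (p.2 - p.1) = p.2 := by abel
      rw [this]
      exact hp.1.2
    · intro p hp q hq hpq
      simp only [Finset.coe_filter, Finset.mem_product, Set.mem_ofPred_eq] at hp hq
      have hpq' : p.1 = q.1 := hpq
      refine Prod.ext hpq' ?_
      have := hp.2.trans hq.2.symm
      rw [hpq'] at this
      exact sub_left_injective this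
  rw [Finset.card_product, ← Finset.add_sum_erase _ _ h0T] at h1
  have h3 : ((S ×ˢ S).filter (fun p => p.2 - p.1 = 0)).card ≤ S.card :=
    (h2 0).trans (Finset.card_filter_le _ _)
  have h4 : ∑ h ∈ T.erase 0, ((S ×ˢ S).filter (fun p => p.2 - p.1 = h)).card ≤
      M * (T.card - 1) := by
    calc ∑ h ∈ T.erase 0, ((S ×ˢ S).filter (fun p => p.2 - p.1 = h)).card
        ≤ ∑ _h ∈ T.erase 0, M := Finset.sum_le_sum fun h hh =>
          (h2 h).trans (hM h (Finset.ne_of_mem_erase hh))
      _ = M * (T.card - 1) := by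
          rw [Finset.sum_const, Finset.card_erase_of_mem h0T, smul_eq_mul, mul_comm]
  rw [pow_two]
  omega

/-- the box -/
noncomputable def box (d N : ℕ) : Finset (Fin d → ℤ) := Fintype.piFinset fun _ => Finset.Icc (1 : ℤ) N

/-- from the quadratic inequality to the bound -/
theorem sqrt_bound {x M A : ℕ} {B : ℝ} (h : x ^ 2 ≤ x + M * (A - 1)) (hA : ((M * A : ℕ) : ℝ) ≤ B) :
    (x : ℝ) ≤ 1 + √B := by
  rcases Nat.eq_zero_or_pos x with hx | hx
  · subst hx
    have := Real.sqrt_nonneg B
    push_cast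
    linarith
  · have h1 : ((x : ℝ) - 1) ^ 2 ≤ B := by
      have h2 : ((x ^ 2 : ℕ) : ℝ) ≤ ((x + M * A : ℕ) : ℝ) := by
        have h3 : M * (A - 1) ≤ M * A := Nat.mul_le_mul_left _ (Nat.sub_le _ _)
        exact_mod_cast h.trans (by omega)
      push_cast at h2 hA
      have hx' : (1 : ℝ) ≤ x := by exact_mod_cast hx
      nlinarith
    have h2 := Real.le_sqrt_of_sq_le h1
    linarith

theorem box_card_bound {d N : ℕ} {P : (Fin d → ℤ) → Prop} [DecidablePred P] (M : ℕ)
    (hM : ∀ h : Fin d → ℤ, h ≠ 0 →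
      (((box d N).filter P).filter (fun g => g + h ∈ (box d N).filter P)).card ≤ M) :
    (((box d N).filter P).card : ℝ) ≤ 1 + √(M * (2 * N) ^ d) := by
  classical
  rcases Nat.eq_zero_or_pos N with hN | hN
  · subst hN
    rcases Nat.eq_zero_or_pos d with hd | hd
    · subst hd
      have h1 : ((box 0 0).filter P).card ≤ 1 := by
        refine (Finset.card_filter_le _ _).trans ?_
        simp [box]
      have h2 : (((box 0 0).filter P).card : ℝ) ≤ 1 := by exact_mod_cast h1
      have := Real.sqrt_nonneg ((M : ℝ) * (2 * ((0 : ℕ) : ℝ)) ^ 0)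
      linarith
    · have h1 : ((box d 0).filter P).card ≤ 0 := by
        refine (Finset.card_filter_le _ _).trans ?_
        simp [box, Fintype.card_piFinset, hd.ne']
      have h2 : (((box d 0).filter P).card : ℝ) ≤ 0 := by exact_mod_cast h1
      have := Real.sqrt_nonneg ((M : ℝ) * (2 * ((0 : ℕ) : ℝ)) ^ d)
      linarith
  · set T : Finset (Fin d → ℤ) := Fintype.piFinset fun _ => Finset.Icc (-((N : ℤ) - 1)) (N - 1)
      with hT
    have h1 := sq_le ((box d N).filter P) M hM T ?_ ?_
    · refine sqrt_bound h1 ?_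
      have hc : T.card = (2 * N - 1) ^ d := by
        rw [hT, Fintype.card_piFinset, Finset.prod_const, Int.card_Icc, Finset.card_univ,
          Fintype.card_fin]
        congr 1
        omega
      rw [hc]
      have h2 : M * (2 * N - 1) ^ d ≤ M * (2 * N) ^ d :=
        Nat.mul_le_mul_left _ (Nat.pow_le_pow_left (Nat.sub_le _ _) _)
      exact_mod_cast h2
    · intro g hg g' hg'
      rw [Finset.mem_filter, box, Fintype.mem_piFinset] at hg hg'
      rw [hT, Fintype.mem_piFinset]
      intro i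
      have e1 := Finset.mem_Icc.mp (hg.1 i)
      have e2 := Finset.mem_Icc.mp (hg'.1 i)
      rw [Finset.mem_Icc, Pi.sub_apply]
      omega
    · rw [hT, Fintype.mem_piFinset]
      intro i
      rw [Finset.mem_Icc, Pi.zero_apply]
      omega

theorem exp_add_sum {d : ℕ} (w : ℂ) (ω : Fin d → ℂ) (n m : Fin d → ℤ) :
    w * ∑ i, ((n + m) i : ℂ) * ω i = w * (∑ i, (n i : ℂ) * ω i + ∑ i, (m i : ℂ) * ω i) := by
  rw [← Finset.sum_add_distrib]
  congr 1
  apply Finset.sum_congr rfl
  intro i _
  rw [Pi.add_apply]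
  push_cast
  ring

open Classical in
/-- **Count, no algebraic values.** -/
theorem count_free {d : ℕ} (ω : Fin d → ℂ) (v w : ℂ) (hv : v ≠ 0)
    (hZ : ∀ n : Fin d → ℤ, IsAlgebraic ℚ (Complex.exp (w * ∑ i, (n i : ℂ) * ω i)) → n = 0)
    (N : ℕ) :
    (((box d N).filter fun n => v * Complex.exp (w * ∑ i, (n i : ℂ) * ω i) ∈ Lt).card : ℝ) ≤
      1 + √((d + 1 : ℕ) * (2 * N) ^ d) := by
  refine box_card_bound (d + 1) ?_
  intro h hh
  by_contra hcon
  push Not at hcon
  set S := (box d N).filter fun n => v * Complex.exp (w * ∑ i, (n i : ℂ) * ω i) ∈ Lt with hS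
  set T := S.filter fun g => g + h ∈ S with hT
  obtain ⟨f⟩ : Nonempty (Fin (d + 1 + 1) ↪ T) := by
    apply Function.Embedding.nonempty_of_card_le
    rw [Fintype.card_fin, Fintype.card_coe]
    omega
  set β : Fin (d + 1 + 1) → ℂ := fun j => ∑ i, ((f j : Fin d → ℤ) i : ℂ) * ω i with hβ
  have hx : Transcendental ℚ (Complex.exp (w * ∑ i, (h i : ℂ) * ω i)) := fun h1 => hh (hZ h h1)
  have hsub : ∀ i j, w * (β i - β j) = w * ∑ l, (((f i : Fin d → ℤ) - (f j : Fin d → ℤ)) l : ℂ) *
      ω l := by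
    intro i j
    rw [hβ]
    simp only
    rw [← Finset.sum_sub_distrib]
    congr 1
    apply Finset.sum_congr rfl
    intro l _
    rw [Pi.sub_apply]
    push_cast
    ring
  have hmem : ∀ j, (f j : Fin d → ℤ) ∈ S ∧ (f j : Fin d → ℤ) + h ∈ S := fun j =>
    Finset.mem_filter.mp (f j).2
  obtain ⟨g, hg, j0, hj0⟩ : ∃ g : Fin (d + 1) → ℤ,
      ∑ j, g j • ((f j.succ : Fin d → ℤ) - (f 0 : Fin d → ℤ)) = 0 ∧ ∃ j, g j ≠ 0 := by
    rw [← Fintype.not_linearIndependent_iff]
    intro hli
    have := hli.fintype_card_le_finrank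
    rw [Fintype.card_fin, Module.finrank_fintype_fun_eq_card, Fintype.card_fin] at this
    omega
  have key := struct_exp v w _ hv hx β (fun j => by
      have := (hmem j).1
      rw [hS, Finset.mem_filter] at this
      exact this.2) (fun j => by
      have := (hmem j).2
      rw [hS, Finset.mem_filter] at this
      have h3 := this.2
      rw [exp_add_sum] at h3
      exact h3) (fun i j hij => by
      intro halg
      rw [hsub] at halg
      have h3 := hZ _ halg
      exact hij (f.injective (Subtype.ext (sub_eq_zero.mp h3)))) (fun j => (g j : ℚ)) (by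
      have h4 : w * ∑ j : Fin (d + 1), (((g j : ℚ) : ℂ)) * (β j.succ - β 0) = 0 := by
        have h5 : ∑ j : Fin (d + 1), (((g j : ℚ) : ℂ)) * (β j.succ - β 0) =
            ∑ l, ((∑ j, g j • ((f j.succ : Fin d → ℤ) - (f 0 : Fin d → ℤ))) l : ℂ) * ω l := by
          simp only [hβ, ← Finset.sum_sub_distrib, Finset.mul_sum]
          rw [Finset.sum_comm]
          apply Finset.sum_congr rfl
          intro l _
          rw [Finset.sum_apply]
          push_cast
          rw [Finset.sum_mul]
          apply Finset.sum_congr rfl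
          intro j _
          rw [Pi.smul_apply, Pi.sub_apply, smul_eq_mul]
          push_cast
          ring
        rw [h5, hg]
        simp
      rw [h4, Complex.exp_zero]
      exact isAlgebraic_one) j0
  exact hj0 (by exact_mod_cast key)

/-- **Lindemann–Weierstrass case**: at most two pairs with the same difference. -/
theorem two_pairs {v w h : ℂ} (hv : v ≠ 0) (hw0 : w ≠ 0) (hw : IsAlgebraic ℚ w) (hh0 : h ≠ 0)
    (hh : IsAlgebraic ℚ h) {β0 β1 β2 : ℂ} (a0 : IsAlgebraic ℚ β0) (a1 : IsAlgebraic ℚ β1)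
    (a2 : IsAlgebraic ℚ β2) (h01 : β0 ≠ β1) (h02 : β0 ≠ β2) (h12 : β1 ≠ β2)
    (m0 : v * Complex.exp (w * β0) ∈ Lt) (m1 : v * Complex.exp (w * β1) ∈ Lt)
    (m2 : v * Complex.exp (w * β2) ∈ Lt) (n0 : v * Complex.exp (w * (β0 + h)) ∈ Lt)
    (n1 : v * Complex.exp (w * (β1 + h)) ∈ Lt) (n2 : v * Complex.exp (w * (β2 + h)) ∈ Lt) :
    False := by
  have hx := Pool.Agent.H340R2.LW.transcendental_cexp (w * h) (hw.mul hh) (mul_ne_zero hw0 hh0)
  have e : ∀ β : ℂ, Complex.exp (w * (β + h)) = Complex.exp (w * h) * Complex.exp (w * β) := by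
    intro β
    rw [← Complex.exp_add]
    congr 1
    ring
  rw [e] at n0 n1 n2
  obtain ⟨a, b, c, ha, hb, hc, hne, hs⟩ := three hv hx m0 m1 m2 n0 n1 n2
  have key := Pool.Agent.H340R2.LW.lindemann_weierstrass (Finset.univ : Finset (Fin 3))
    ![w * β0, w * β1, w * β2] ![a, b, c] (by
      intro i _
      fin_cases i
      · exact hw.mul a0
      · exact hw.mul a1
      · exact hw.mul a2) (by
      intro i _
      fin_cases i
      · exact ha
      · exact hb
      · exact hc) (by
      have i01 : w * β0 ≠ w * β1 := fun h => h01 (mul_left_cancel₀ hw0 h)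
      have i02 : w * β0 ≠ w * β2 := fun h => h02 (mul_left_cancel₀ hw0 h)
      have i12 : w * β1 ≠ w * β2 := fun h => h12 (mul_left_cancel₀ hw0 h)
      intro i _ j _ hij
      fin_cases i <;> fin_cases j
      · rfl
      · exact absurd hij i01
      · exact absurd hij i02
      · exact absurd hij.symm i01
      · rfl
      · exact absurd hij i12
      · exact absurd hij.symm i02
      · exact absurd hij.symm i12
      · rfl) (by
      rw [Fin.sum_univ_three]
      exact hs)
  exact hne ⟨key 0 (Finset.mem_univ _), key 1 (Finset.mem_univ _), key 2 (Finset.mem_univ _)⟩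

theorem alg_sum {d : ℕ} {ω : Fin d → ℂ} (hω : ∀ i, IsAlgebraic ℚ (ω i)) (n : Fin d → ℤ) :
    IsAlgebraic ℚ (∑ i, (n i : ℂ) * ω i) := by
  rw [← mem_QB]
  exact sum_mem fun i _ => mul_mem (mem_QB.mpr (isAlgebraic_intCast (n i))) (mem_QB.mpr (hω i))

theorem sum_inj {d : ℕ} {ω : Fin d → ℂ} (hli : LinearIndependent ℚ ω) {n : Fin d → ℤ}
    (h : ∑ i, (n i : ℂ) * ω i = 0) : n = 0 := by
  have h1 := Fintype.linearIndependent_iff.mp hli (fun i => (n i : ℚ)) (by
    rw [← h]
    apply Finset.sum_congr rfl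
    intro i _
    rw [Rat.smul_def]
    push_cast
    rfl)
  funext i
  exact_mod_cast h1 i

theorem sum_sub' {d : ℕ} (ω : Fin d → ℂ) (n m : Fin d → ℤ) :
    ∑ i, ((n - m) i : ℂ) * ω i = ∑ i, (n i : ℂ) * ω i - ∑ i, (m i : ℂ) * ω i := by
  rw [← Finset.sum_sub_distrib]
  apply Finset.sum_congr rfl
  intro i _
  rw [Pi.sub_apply]
  push_cast
  ring

open Classical in
/-- **Count, algebraic `w`.** -/
theorem count_alg {d : ℕ} (ω : Fin d → ℂ) (hω : ∀ i, IsAlgebraic ℚ (ω i))
    (hli : LinearIndependent ℚ ω) (v w : ℂ) (hv : v ≠ 0) (hw0 : w ≠ 0) (hw : IsAlgebraic ℚ w)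
    (N : ℕ) :
    (((box d N).filter fun n => v * Complex.exp (w * ∑ i, (n i : ℂ) * ω i) ∈ Lt).card : ℝ) ≤
      1 + √(2 * (2 * N) ^ d) := by
  have h2 : ((2 : ℕ) : ℝ) = 2 := by norm_num
  rw [← h2]
  refine box_card_bound 2 ?_
  intro h hh
  by_contra hcon
  push Not at hcon
  obtain ⟨n0, hn0, n1, hn1, n2, hn2, h01, h02, h12⟩ := Finset.two_lt_card.mp hcon
  have hne : ∀ {n m : Fin d → ℤ}, n ≠ m → ∑ i, (n i : ℂ) * ω i ≠ ∑ i, (m i : ℂ) * ω i := by
    intro n m hnm he
    apply hnm
    rw [← sub_eq_zero]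
    apply sum_inj hli
    rw [sum_sub', he, sub_self]
  simp only [Finset.mem_filter] at hn0 hn1 hn2
  refine two_pairs hv hw0 hw (h := ∑ i, (h i : ℂ) * ω i) (fun h0 => hh (sum_inj hli h0))
    (alg_sum hω h) (alg_sum hω n0) (alg_sum hω n1) (alg_sum hω n2) (hne h01) (hne h02) (hne h12)
    hn0.1.2 hn1.1.2 hn2.1.2 ?_ ?_ ?_
  · have := hn0.2.2
    rwa [exp_add_sum] at this
  · have := hn1.2.2
    rwa [exp_add_sum] at this
  · have := hn2.2.2
    rwa [exp_add_sum] at this

/-- Gelfond–Schneider -/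
theorem gs {l c : ℂ} (hl : IsAlgebraic ℚ (Complex.exp l)) (hl0 : l ≠ 0) (hc : IsAlgebraic ℚ c)
    (hci : ∀ r : ℚ, c ≠ r) : Transcendental ℚ (Complex.exp (c * l)) := by
  intro h
  have hli : LinearIndependent ℚ ![l, c * l] := by
    rw [LinearIndependent.pair_iff]
    intro s t hst
    have h1 : ((s : ℂ) + t * c) * l = 0 := by
      rw [← hst, Rat.smul_def, Rat.smul_def]; ring
    have h2 : (s : ℂ) + t * c = 0 := (mul_eq_zero.mp h1).resolve_right hl0
    by_cases ht : t = 0
    · subst ht
      refine ⟨?_, rfl⟩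
      simpa using h2
    · exfalso
      apply hci (-s / t)
      have ht' : (t : ℂ) ≠ 0 := by exact_mod_cast ht
      push_cast
      field_simp
      linear_combination h2
  have := Pool.Agent.H297R2.baker_inhom ![l, c * l] (by
    intro i
    fin_cases i
    · exact hl
    · exact h) hli 0 isAlgebraic_zero ![c, -1] (by
    intro i
    fin_cases i
    · exact hc
    · exact isAlgebraic_one.neg) (by
    rw [Fin.sum_univ_two]
    simp)
  have h1 := this.2 1
  simp at h1

/-- there is a coordinate hyperplane without algebraic values -/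
theorem good_index {d : ℕ} (ω : Fin (d + 1) → ℂ) (hω : ∀ i, IsAlgebraic ℚ (ω i))
    (hli : LinearIndependent ℚ ω) (w : ℂ) (hw0 : w ≠ 0) : ∃ i0 : Fin (d + 1),
    ∀ n : Fin (d + 1) → ℤ, n i0 = 0 →
      IsAlgebraic ℚ (Complex.exp (w * ∑ i, (n i : ℂ) * ω i)) → n = 0 := by
  by_cases hZ : ∃ n : Fin (d + 1) → ℤ, n ≠ 0 ∧
      IsAlgebraic ℚ (Complex.exp (w * ∑ i, (n i : ℂ) * ω i))
  · obtain ⟨n, hn, ha⟩ := hZ
    obtain ⟨i0, hi0⟩ : ∃ i, n i ≠ 0 := by
      by_contra hcon
      push Not at hcon
      exact hn (funext hcon)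
    refine ⟨i0, fun m hm ham => ?_⟩
    by_contra hm0
    set b : ℂ := ∑ i, (n i : ℂ) * ω i with hb
    set b' : ℂ := ∑ i, (m i : ℂ) * ω i with hb'
    have hb0 : b ≠ 0 := fun h0 => hn (sum_inj hli h0)
    have hc : IsAlgebraic ℚ (b' / b) := alg_div (alg_sum hω m) (alg_sum hω n)
    refine gs (l := w * b) (c := b' / b) ha (mul_ne_zero hw0 hb0) hc ?_ (by
      have : b' / b * (w * b) = w * b' := by
        field_simp
      rw [this]
      exact ham)
    intro r hr
    -- `b' = r b`
    have h1 : b' = r * b := by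
      rw [← hr]
      field_simp
    have h2 := Fintype.linearIndependent_iff.mp hli (fun i => (m i : ℚ) - r * n i) (by
      have h3 : ∑ i, ((m i : ℚ) - r * n i) • ω i = b' - r * b := by
        rw [hb, hb', Finset.mul_sum, ← Finset.sum_sub_distrib]
        apply Finset.sum_congr rfl
        intro i _
        rw [Rat.smul_def]
        push_cast
        ring
      rw [h3, h1, sub_self])
    have h3 := h2 i0
    simp only [hm] at h3
    push_cast at h3
    have hr0 : r = 0 := by
      have h4 : r * (n i0 : ℚ) = 0 := by linarith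
      exact (mul_eq_zero.mp h4).resolve_right (by exact_mod_cast hi0)
    apply hm0
    funext i
    have h5 := h2 i
    simp only [hr0, zero_mul, sub_zero] at h5
    exact_mod_cast h5
  · push Not at hZ
    exact ⟨0, fun n _ ha => by
      by_contra hn
      exact hZ n hn ha⟩

open Classical in
/-- **Count, general `w`.** -/
theorem count_gen {d : ℕ} (ω : Fin (d + 1) → ℂ) (hω : ∀ i, IsAlgebraic ℚ (ω i))
    (hli : LinearIndependent ℚ ω) (v w : ℂ) (hv : v ≠ 0) (hw0 : w ≠ 0) (N : ℕ) :
    (((box (d + 1) N).filter fun n =>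
      v * Complex.exp (w * ∑ i, (n i : ℂ) * ω i) ∈ Lt).card : ℝ) ≤
      N * (1 + √((d + 1 : ℕ) * (2 * N) ^ d)) := by
  obtain ⟨i0, hi0⟩ := good_index ω hω hli w hw0
  set S := (box (d + 1) N).filter fun n => v * Complex.exp (w * ∑ i, (n i : ℂ) * ω i) ∈ Lt with hS
  set B : ℝ := 1 + √((d + 1 : ℕ) * (2 * N) ^ d) with hB
  have hB0 : 0 ≤ B := by
    have := Real.sqrt_nonneg (((d + 1 : ℕ) : ℝ) * (2 * N) ^ d)
    rw [hB]
    linarith
  -- the fibres
  have hfib : ∀ m : ℤ, ((S.filter fun n => n i0 = m).card : ℝ) ≤ B := by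
    intro m
    have h1 := count_free (fun j : Fin d => ω (i0.succAbove j)) (v * Complex.exp (w * (m * ω i0)))
      w (mul_ne_zero hv (Complex.exp_ne_zero _)) (by
        intro n hn
        have h2 := hi0 (Fin.insertNth i0 (0 : ℤ) n) (by simp) (by
          rw [Fin.sum_univ_succAbove _ i0]
          simpa using hn)
        funext j
        have h3 := congrFun h2 (i0.succAbove j)
        simpa using h3) N
    refine le_trans ?_ h1
    have h2 : (S.filter fun n => n i0 = m).card ≤ ((box d N).filter fun n =>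
        v * Complex.exp (w * (m * ω i0)) *
          Complex.exp (w * ∑ j, (n j : ℂ) * ω (i0.succAbove j)) ∈ Lt).card := by
      refine Finset.card_le_card_of_injOn (fun n j => n (i0.succAbove j)) ?_ ?_
      · intro n hn
        rw [Finset.mem_coe, Finset.mem_filter, hS, Finset.mem_filter, box,
          Fintype.mem_piFinset] at hn
        rw [Finset.mem_coe, Finset.mem_filter, box, Fintype.mem_piFinset]
        refine ⟨fun j => hn.1.1 _, ?_⟩
        have h3 := hn.1.2
        rw [Fin.sum_univ_succAbove _ i0, hn.2, mul_add, Complex.exp_add, ← mul_assoc] at h3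
        exact h3
      · intro n hn n' hn' hnn
        rw [Finset.mem_coe, Finset.mem_filter] at hn hn'
        funext i
        by_cases hi : i = i0
        · rw [hi, hn.2, hn'.2]
        · obtain ⟨j, rfl⟩ := Fin.exists_succAbove_eq hi
          exact congrFun hnn j
    exact_mod_cast h2
  have h1 : S.card = ∑ m ∈ Finset.Icc (1 : ℤ) N, (S.filter fun n => n i0 = m).card :=
    Finset.card_eq_sum_card_fiberwise (fun n hn => by
      rw [Finset.mem_coe, hS, Finset.mem_filter, box, Fintype.mem_piFinset] at hn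
      exact hn.1 i0)
  rw [h1]
  push_cast
  calc ∑ m ∈ Finset.Icc (1 : ℤ) N, ((S.filter fun n => n i0 = m).card : ℝ)
      ≤ ∑ _m ∈ Finset.Icc (1 : ℤ) N, B := Finset.sum_le_sum fun m _ => hfib m
    _ = N * B := by
        rw [Finset.sum_const, Int.card_Icc, nsmul_eq_mul]
        congr 2
        omega

end Pool.Agent.D0H30.DE
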