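import Pool.Agent.D0H30.DE.Hilbert
import Pool.Agent.TH160.TowP.CFull

/-!
# Exponential polynomials on lattices and linear forms in logarithms
-/

set_option autoImplicit false

namespace Pool.Agent.D0H30.DE

open Finset Polynomial
open Pool.Agent.TH160.TowP
open Pool.Agent.W254.Ab (QA mem_QA)
open Pool.Agent.W254.PA (Hyp)

section general

variable {Ω : Type} [Field Ω] [CharZero Ω]

theorem coe_f (f : Ω →ₗ[QA Ω] QA Ω) {a : Ω} (ha : IsAlgebraic ℚ a) (z : Ω) :
    ((f (a * z) : QA Ω) : Ω) = a * (f z : Ω) := by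
  have h1 : a * z = (⟨a, mem_QA.mpr ha⟩ : QA Ω) • z := by
    rw [Algebra.smul_def]
    rfl
  rw [h1, map_smul, smul_eq_mul]
  rfl

theorem alg_prod {ι : Type} (g : ι → Ω) (J : Finset ι) (hg : ∀ i ∈ J, IsAlgebraic ℚ (g i))
    (T : Finset ι) (hT : T ⊆ J) : IsAlgebraic ℚ (∏ i ∈ T, g i) := by
  rw [← mem_QA]
  exact prod_mem fun i hi => mem_QA.mpr (hg i (hT hi))

theorem alg_sum' {ι : Type} (g : ι → Ω) (J : Finset ι) (hg : ∀ i ∈ J, IsAlgebraic ℚ (g i))
    (T : Finset ι) (hT : T ⊆ J) : IsAlgebraic ℚ (∑ i ∈ T, g i) := by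
  rw [← mem_QA]
  exact sum_mem fun i hi => mem_QA.mpr (hg i (hT hi))

/-- the polynomial with the coefficients `f (coeff)` -/
noncomputable def fpoly (f : Ω →ₗ[QA Ω] QA Ω) (D : ℕ) (P : Polynomial Ω) : Polynomial Ω :=
  ∑ e ∈ Finset.range D, monomial e ((f (P.coeff e) : QA Ω) : Ω)

theorem fpoly_coeff (f : Ω →ₗ[QA Ω] QA Ω) (D : ℕ) (P : Polynomial Ω) (hP : Z D P) (e : ℕ) :
    (fpoly f D P).coeff e = ((f (P.coeff e) : QA Ω) : Ω) := by
  unfold fpoly
  rw [finsetSum_coeff]
  simp only [coeff_monomial]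
  by_cases he : e < D
  · rw [Finset.sum_ite_eq' (Finset.range D) e, if_pos (Finset.mem_range.mpr he)]
  · rw [hP e (by omega), map_zero]
    apply Finset.sum_eq_zero
    intro k hk
    rw [Finset.mem_range] at hk
    rw [if_neg (by omega)]

theorem fpoly_Z (f : Ω →ₗ[QA Ω] QA Ω) (D : ℕ) (P : Polynomial Ω) (hP : Z D P) :
    Z D (fpoly f D P) := by
  intro e he
  rw [fpoly_coeff f D P hP, hP e he, map_zero]
  rfl

theorem fpoly_eval (f : Ω →ₗ[QA Ω] QA Ω) (D : ℕ) (P : Polynomial Ω) (hP : Z D P) {y : Ω}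
    (hy : IsAlgebraic ℚ y) : ((f (P.eval y) : QA Ω) : Ω) = (fpoly f D P).eval y := by
  have h1 : P = ∑ e ∈ Finset.range D, monomial e (P.coeff e) := by
    ext e
    rw [finsetSum_coeff]
    simp only [coeff_monomial]
    by_cases he : e < D
    · rw [Finset.sum_ite_eq' (Finset.range D) e, if_pos (Finset.mem_range.mpr he)]
    · rw [hP e (by omega)]
      symm
      apply Finset.sum_eq_zero
      intro k hk
      rw [Finset.mem_range] at hk
      rw [if_neg (by omega)]
  have h2 : P.eval y = ∑ e ∈ Finset.range D, y ^ e * P.coeff e := by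
    conv_lhs => rw [h1]
    rw [eval_finsetSum]
    apply Finset.sum_congr rfl
    intro e _
    rw [eval_monomial, mul_comm]
  rw [h2, map_sum]
  unfold fpoly
  rw [eval_finsetSum]
  push_cast
  apply Finset.sum_congr rfl
  intro e _
  rw [coe_f f (hy.pow e), eval_monomial, mul_comm]

/-- **The algebraic part.** -/
theorem part2A {V : Submodule (QA Ω) Ω} {ι κ : Type} [DecidableEq ι] [Fintype κ] [DecidableEq κ]
    (l : ι → Ω) (Ψ : κ → Ω) (ρ : κ → ι → Ω) (Y0 : Ω) (j0 : κ) (D : ℕ) (J : Finset ι)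
    (P : κ → Polynomial Ω) (hP : ∀ j, Z D (P j)) (hJ : Fintype.card κ * D + D ≤ J.card)
    (hY : IsAlgebraic ℚ Y0) (hl : ∀ i ∈ J, IsAlgebraic ℚ (l i)) (hl0 : ∀ i ∈ J, l i ≠ 0)
    (hΨ : ∀ j, IsAlgebraic ℚ (Ψ j)) (hΨ0 : Ψ j0 ≠ 0)
    (hρ : ∀ j, ∀ i ∈ J, IsAlgebraic ℚ (ρ j i)) (hρ0 : ∀ i ∈ J, ρ j0 i ≠ 0)
    (hne : ∀ j, j ≠ j0 → ∀ i ∈ J, ρ j0 i ≠ ρ j i)
    (h : ∀ T ⊆ J, E Ψ ρ l Y0 P T ∈ V) : ∀ e, (P j0).coeff e ∈ V := by
  classical
  intro e1
  by_contra hcon
  obtain ⟨f, hf1, hfV⟩ := Submodule.exists_le_ker_of_notMem hcon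
  set Q : κ → Polynomial Ω := fun j => fpoly f D (P j) with hQ
  have hQZ : ∀ j, Z D (Q j) := fun j => fpoly_Z f D (P j) (hP j)
  have hQ0 : Q j0 ≠ 0 := by
    intro h0
    have h1 := congrArg (fun p : Polynomial Ω => p.coeff e1) h0
    simp only [hQ, coeff_zero, fpoly_coeff f D (P j0) (hP j0)] at h1
    exact hf1 (Subtype.ext h1)
  -- the identity on the cube
  have hE : ∀ T ⊆ J, ∑ j, Ψ j * (∏ i ∈ T, ρ j i) * (Q j).eval (Y0 + ∑ i ∈ T, l i) = 0 := by
    intro T hT
    have h1 : ((f (E Ψ ρ l Y0 P T) : QA Ω) : Ω) = 0 := by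
      have h2 : f (E Ψ ρ l Y0 P T) = 0 := LinearMap.mem_ker.mp (hfV (h T hT))
      rw [h2]
      rfl
    rw [← h1]
    unfold E
    rw [map_sum]
    push_cast
    apply Finset.sum_congr rfl
    intro j _
    rw [coe_f f ((hΨ j).mul (alg_prod (ρ j) J (hρ j) T hT)),
      fpoly_eval f D (P j) (hP j) (hY.add (alg_sum' l J hl T hT))]
  set e := (Q j0).natDegree with he
  have heD : e < D := by
    by_contra h1
    push Not at h1
    exact hQ0 (leadingCoeff_eq_zero.mp (hQZ j0 _ h1))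
  set d : κ → ℕ := fun i => if i = j0 then e + 1 else D with hd
  have hQd : ∀ i, Z (d i) (Q i) := by
    intro i
    simp only [hd]
    split_ifs with hh
    · rw [hh]; exact Z_natDegree (Q j0)
    · exact hQZ i
  choose c c1 c2 c3 using fun i => exists_coef l Y0 (d i) (Q i) (hQd i)
  obtain ⟨I, hIJ, hIc⟩ := Finset.exists_subset_card_eq (s := J) (n := e) (by
    have : 0 ≤ Fintype.card κ * D := Nat.zero_le _
    omega)
  have hd0 : d j0 = e + 1 := by simp [hd]
  have key := char_indep ρ j0 I (∑ i ∈ Finset.univ.erase j0, d i) J d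
    (fun i I => Ψ i * c i I) rfl (by
      intro i _ I' _ hI'
      simp only [c2 i I' hI', mul_zero]) (by
      intro I' _ hI'
      rw [c2 j0 I' (by omega), mul_zero]) hIJ (by
      have h1 : ∑ i ∈ (Finset.univ : Finset κ).erase j0, d i ≤ Fintype.card κ * D := by
        calc ∑ i ∈ (Finset.univ : Finset κ).erase j0, d i
            ≤ ∑ _i ∈ (Finset.univ : Finset κ).erase j0, D := by
              apply Finset.sum_le_sum
              intro i hi
              simp only [hd]
              rw [if_neg (Finset.ne_of_mem_erase hi)]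
          _ = ((Finset.univ : Finset κ).erase j0).card * D := by rw [Finset.sum_const, smul_eq_mul]
          _ ≤ Fintype.card κ * D := by
              apply Nat.mul_le_mul_right
              exact (Finset.card_le_card (Finset.erase_subset _ _)).trans (by simp)
      omega) hρ0 hne (by
      intro K hK
      rw [← hE K hK]
      apply Finset.sum_congr rfl
      intro i _
      rw [ev_smul, ← c1]
      ring)
  rw [c3 j0 I (by omega)] at key
  have h1 := (mul_eq_zero.mp key).resolve_left hΨ0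
  have hprod : ∏ i ∈ I, l i ≠ 0 := Finset.prod_ne_zero_iff.mpr fun i hi => hl0 i (hIJ hi)
  rcases mul_eq_zero.mp h1 with h2 | h2
  · rcases mul_eq_zero.mp h2 with h3 | h3
    · exact (by exact_mod_cast I.card.factorial_ne_zero : (I.card.factorial : Ω) ≠ 0) h3
    · rw [hIc] at h3
      exact hQ0 (leadingCoeff_eq_zero.mp h3)
  · exact hprod h2

variable {G : Type} [AddCommGroup G]

omit [CharZero Ω] in
theorem chi_sum (χ : G → Ω) (h1 : χ 0 = 1) (hχ : ∀ a b, χ (a + b) = χ a * χ b) {ι : Type}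
    (h : ι → G) (T : Finset ι) : χ (∑ i ∈ T, h i) = ∏ i ∈ T, χ (h i) := by
  classical
  induction T using Finset.induction_on with
  | empty => rw [Finset.sum_empty, Finset.prod_empty, h1]
  | insert i T hi ih => rw [Finset.sum_insert hi, Finset.prod_insert hi, hχ, ih]

/-- **Cubes.** -/
theorem cube_thm {V : Submodule (QA Ω) Ω} (hV : Hyp V) {m D k : ℕ}
    (hk : NN m D + m * D + D ≤ k) (χ : Fin m → G → Ω) (hχ1 : ∀ j, χ j 0 = 1)
    (hχ : ∀ j a b, χ j (a + b) = χ j a * χ j b) (hχ0 : ∀ j a, χ j a ≠ 0) (A : G →+ Ω)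
    (hA : ∀ g, IsAlgebraic ℚ (A g)) (al : Fin m → Prop)
    (hal : ∀ j, al j → ∀ g, IsAlgebraic ℚ (χ j g)) (P : Fin m → Polynomial Ω)
    (hP : ∀ j, Z D (P j)) (a : G) (h : ℕ → G) (h0 : ∀ i < k, A (h i) ≠ 0)
    (htr : ∀ i < k, ∀ j, ¬ al j → Transcendental ℚ (χ j (h i)))
    (hne : ∀ i < k, ∀ j j', j ≠ j' → χ j (h i) ≠ χ j' (h i))
    (hcube : ∀ T ⊆ Finset.range k,
      ∑ j, χ j (a + ∑ i ∈ T, h i) * (P j).eval (A (a + ∑ i ∈ T, h i)) ∈ V) :
    (∀ j, ¬ al j → P j = 0) ∧ (∀ j, al j → ∀ e, (P j).coeff e ∈ V) := by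
  classical
  have hval : ∀ T ⊆ Finset.range k,
      E (fun j : {j // ¬ al j} => χ j a) (fun (j : {j // ¬ al j}) i => χ j (h i))
        (fun i => A (h i)) (A a) (fun j => P j) T +
      E (fun j : {j // al j} => χ j a) (fun (j : {j // al j}) i => χ j (h i))
        (fun i => A (h i)) (A a) (fun j => P j) T ∈ V := by
    intro T hT
    have h1 := hcube T hT
    have e2 : ∀ j, χ j (a + ∑ i ∈ T, h i) = χ j a * ∏ i ∈ T, χ j (h i) := fun j => by
      rw [hχ, chi_sum (χ j) (hχ1 j) (hχ j)]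
    have e1 : A (a + ∑ i ∈ T, h i) = A a + ∑ i ∈ T, A (h i) := by
      rw [map_add, map_sum]
    simp only [e2] at h1
    rw [e1, ← Fintype.sum_subtype_add_sum_subtype al] at h1
    unfold E
    rw [add_comm]
    exact h1
  have hcard : ∀ (P : Fin m → Prop) [Fintype {j // P j}], Fintype.card {j // P j} ≤ m := by
    intro P _
    have := Fintype.card_le_of_injective (Subtype.val : {j // P j} → Fin m) Subtype.val_injective
    rwa [Fintype.card_fin] at this
  have hmain : ∀ j, ¬ al j → P j = 0 := by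
    intro j hj
    refine part1G hV (fun (j : {j // ¬ al j}) i => χ j (h i)) (fun i => A (h i))
      (fun j : {j // ¬ al j} => χ j a) (A a) D (fun j : {j // al j} => χ j a)
      (fun (j : {j // al j}) i => χ j (h i)) (∑ _j : {j // al j}, D) (Finset.range k)
      (fun _ => D) (fun j => P j) (fun j => P j) rfl (fun j => hP j) (fun j => hP j) ?_
      (fun j i hi => htr i (Finset.mem_range.mp hi) j j.2)
      (fun j j' hjj i hi => hne i (Finset.mem_range.mp hi) j j' (fun hh => hjj (Subtype.ext hh)))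
      (fun i hi => h0 i (Finset.mem_range.mp hi)) (fun j => hχ0 j a)
      (fun j i _ => hal j j.2 (h i)) hval ⟨j, hj⟩
    rw [Finset.card_range]
    have h1 : ∑ _j : {j // al j}, D ≤ m * D := by
      rw [Finset.sum_const, smul_eq_mul, Finset.card_univ]
      exact Nat.mul_le_mul_right _ (hcard al)
    refine le_trans (Nat.add_le_add (NN_mono (hcard _)) h1) ?_
    omega
  refine ⟨hmain, fun j0 hj0 => ?_⟩
  refine part2A (fun i => A (h i)) (fun j : {j // al j} => χ j a)
    (fun (j : {j // al j}) i => χ j (h i)) (A a) ⟨j0, hj0⟩ D (Finset.range k) (fun j => P j)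
    (fun j => hP j) ?_ (hA a) (fun i _ => hA _) (fun i hi => h0 i (Finset.mem_range.mp hi))
    (fun j => hal j j.2 a) (hχ0 j0 a) (fun j i _ => hal j j.2 _) (fun i _ => hχ0 j0 _)
    (fun j hj i hi => hne i (Finset.mem_range.mp hi) j0 j (fun hh => hj (Subtype.ext hh.symm))) ?_
  · rw [Finset.card_range]
    have h1 := Nat.mul_le_mul_right D (hcard al)
    omega
  · intro T hT
    have h1 := hval T hT
    have h2 : E (fun j : {j // ¬ al j} => χ j a) (fun (j : {j // ¬ al j}) i => χ j (h i))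
        (fun i => A (h i)) (A a) (fun j => P j) T = 0 := by
      unfold E
      apply Finset.sum_eq_zero
      intro j _
      simp only [hmain j j.2, eval_zero, mul_zero]
    rw [h2, zero_add] at h1
    exact h1

end general

section lattice

open Pool.Agent.H301R2.SSE (Lt)

/-- the exponential polynomial `∑ t_j ^ n P_j(n · ω)` on the lattice -/
noncomputable def EP {m r : ℕ} (t : Fin m → Fin r → ℂ) (ω : Fin r → ℂ) (P : Fin m → ℂ[X])
    (n : Fin r → ℤ) : ℂ :=
  ∑ j, (∏ l, t j l ^ n l) * (P j).eval (∑ l, (n l : ℂ) * ω l)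

/-- the characters -/
noncomputable def chi {m r : ℕ} (t : Fin m → Fin r → ℂ) (j : Fin m) (n : Fin r → ℤ) : ℂ :=
  ∏ l, t j l ^ n l

theorem chi_zero {m r : ℕ} (t : Fin m → Fin r → ℂ) (j : Fin m) : chi t j 0 = 1 := by
  simp [chi]

theorem chi_add {m r : ℕ} {t : Fin m → Fin r → ℂ} (ht : ∀ j l, t j l ≠ 0) (j : Fin m)
    (a b : Fin r → ℤ) : chi t j (a + b) = chi t j a * chi t j b := by
  unfold chi
  rw [← Finset.prod_mul_distrib]
  apply Finset.prod_congr rfl
  intro l _
  rw [Pi.add_apply, zpow_add₀ (ht j l)]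

theorem chi_ne {m r : ℕ} {t : Fin m → Fin r → ℂ} (ht : ∀ j l, t j l ≠ 0) (j : Fin m)
    (a : Fin r → ℤ) : chi t j a ≠ 0 :=
  Finset.prod_ne_zero_iff.mpr fun l _ => zpow_ne_zero _ (ht j l)

theorem chi_sub {m r : ℕ} {t : Fin m → Fin r → ℂ} (ht : ∀ j l, t j l ≠ 0) (j : Fin m)
    (a b : Fin r → ℤ) : chi t j (a - b) = chi t j a / chi t j b := by
  rw [eq_div_iff (chi_ne ht j b), ← chi_add ht, sub_add_cancel]

theorem chi_single {m r : ℕ} (t : Fin m → Fin r → ℂ) (j : Fin m) (l : Fin r) (q : ℤ) :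
    chi t j (Pi.single l q) = t j l ^ q := by
  unfold chi
  rw [Finset.prod_eq_single l]
  · rw [Pi.single_eq_same]
  · intro i _ hi
    rw [Pi.single_eq_of_ne hi, zpow_zero]
  · intro h
    exact absurd (Finset.mem_univ l) h

/-- the additive function `n · ω` -/
noncomputable def lin {r : ℕ} (ω : Fin r → ℂ) : (Fin r → ℤ) →+ ℂ where
  toFun n := ∑ l, (n l : ℂ) * ω l
  map_zero' := by simp
  map_add' a b := by
    rw [← Finset.sum_add_distrib]
    apply Finset.sum_congr rfl
    intro l _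
    rw [Pi.add_apply]
    push_cast
    ring

theorem lin_single {r : ℕ} (ω : Fin r → ℂ) (l : Fin r) (q : ℤ) :
    lin ω (Pi.single l q) = q * ω l := by
  change ∑ i, ((Pi.single l q : Fin r → ℤ) i : ℂ) * ω i = q * ω l
  rw [Finset.sum_eq_single l]
  · rw [Pi.single_eq_same]
  · intro i _ hi
    rw [Pi.single_eq_of_ne hi]
    push_cast
    ring
  · intro h
    exact absurd (Finset.mem_univ l) h

/-- only trivial values: `P_j = 0` unless all `t_jl` are algebraic, and then the coefficients are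
linear forms in logarithms -/
def Triv {m r : ℕ} (t : Fin m → Fin r → ℂ) (P : Fin m → ℂ[X]) : Prop :=
  ∀ j, ((∀ l, IsAlgebraic ℚ (t j l)) → ∀ e, (P j).coeff e ∈ Lt) ∧
    ((∃ l, Transcendental ℚ (t j l)) → P j = 0)

theorem triv_mem {m r : ℕ} {t : Fin m → Fin r → ℂ} {ω : Fin r → ℂ}
    (hω : ∀ l, IsAlgebraic ℚ (ω l)) {P : Fin m → ℂ[X]} (h : Triv t P) (n : Fin r → ℤ) :
    EP t ω P n ∈ Lt := by
  unfold EP
  apply Submodule.sum_mem
  intro j _
  by_cases hj : ∀ l, IsAlgebraic ℚ (t j l)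
  · apply Pool.Agent.H301R2.SSE.Lt_mul
    · rw [← mem_QA]
      exact prod_mem fun l _ => zpow_mem (mem_QA.mpr (hj l)) _
    · rw [eval_eq_sum_range]
      apply Submodule.sum_mem
      intro e _
      rw [mul_comm]
      exact Pool.Agent.H301R2.SSE.Lt_mul ((alg_sum hω n).pow e) ((h j).1 hj e)
  · push Not at hj
    rw [(h j).2 hj, eval_zero, mul_zero]
    exact Submodule.zero_mem _

/-- the size of the cubes -/
def KK (m D : ℕ) : ℕ := NN m D + m * D + D

open Classical in
/-- **Main theorem.** -/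
theorem main (m D r : ℕ) : ∃ C : ℝ, 0 < C ∧ ∀ (t : Fin m → Fin r → ℂ) (ω : Fin r → ℂ)
    (P : Fin m → ℂ[X]), (∀ j l, t j l ≠ 0) → (∀ l, IsAlgebraic ℚ (ω l)) → (∃ l, ω l ≠ 0) →
    (∀ i j, i ≠ j → ∃ l, ∀ q : ℕ, 0 < q → t i l ^ q ≠ t j l ^ q) → (∀ j, Z D (P j)) →
    ¬ Triv t P → ∀ N : ℕ, 1 ≤ N →
      (((box r N).filter fun n => EP t ω P n ∈ Lt).card : ℝ) ≤
        C * (N : ℝ) ^ r * (N : ℝ) ^ (-(1 / 2 : ℝ) ^ KK m D) := by
  set b : ℕ := 1 + m + m * m with hb
  refine ⟨4 * 3 ^ r * ((b : ℝ) + 1), by positivity, ?_⟩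
  intro t ω P ht hω hω0 hnd hP hnt N hN
  by_contra hcon
  push Not at hcon
  obtain ⟨l0, hl0⟩ := hω0
  have hr : 1 ≤ r := by
    rcases r with _ | r
    · exact l0.elim0
    · omega
  set al : Fin m → Prop := fun j => ∀ l, IsAlgebraic ℚ (t j l) with hal
  set B0 : (Fin r → ℤ) → Prop := fun h => lin ω h = 0 with hB0
  set B1 : Fin m → (Fin r → ℤ) → Prop := fun j h => ¬ al j ∧ IsAlgebraic ℚ (chi t j h) with hB1
  set B2 : Fin m × Fin m → (Fin r → ℤ) → Prop := fun p h => p.1 ≠ p.2 ∧ chi t p.1 h = chi t p.2 h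
    with hB2
  obtain ⟨Bad, hBad⟩ : ∃ Bad : (Fin r → ℤ) → Prop,
      ∀ h, Bad h ↔ (B0 h ∨ (∃ j, B1 j h) ∨ ∃ p, B2 p h) := ⟨_, fun _ => Iff.rfl⟩
  have c0 : ((sbox r N).filter B0).card ≤ (2 * N + 1) ^ (r - 1) := by
    refine bad_card N B0 ?_ l0 ?_
    · intro x y hx hy
      have hx' : lin ω x = 0 := hx
      have hy' : lin ω y = 0 := hy
      change lin ω (x - y) = 0
      rw [map_sub, hx', hy', sub_zero]
    · intro q hq h
      have h' : lin ω (Pi.single l0 q) = 0 := h
      rw [lin_single] at h'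
      exact hl0 ((mul_eq_zero.mp h').resolve_left (by exact_mod_cast hq))
  have c1 : ∀ j, ((sbox r N).filter (B1 j)).card ≤ (2 * N + 1) ^ (r - 1) := by
    intro j
    by_cases hj : al j
    · rw [Finset.filter_false_of_mem (fun h _ hh => hh.1 hj), Finset.card_empty]
      exact Nat.zero_le _
    · have hj' := hj
      rw [hal] at hj'
      push Not at hj'
      obtain ⟨l, hl⟩ := hj'
      refine bad_card N (B1 j) ?_ l ?_
      · intro x y hx hy
        refine ⟨hj, ?_⟩
        rw [chi_sub ht]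
        exact alg_div hx.2 hy.2
      · intro q hq h
        have h1 := h.2
        rw [chi_single] at h1
        apply hl
        obtain ⟨k, hk | hk⟩ := Int.eq_nat_or_neg q
        · rw [hk, zpow_natCast] at h1
          exact h1.of_pow (Nat.pos_of_ne_zero (fun h0 => hq (by rw [hk, h0]; rfl)))
        · rw [hk, zpow_neg, zpow_natCast] at h1
          have h2 := h1.inv
          rw [inv_inv] at h2
          exact h2.of_pow (Nat.pos_of_ne_zero (fun h0 => hq (by rw [hk, h0]; rfl)))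
  have c2 : ∀ p, ((sbox r N).filter (B2 p)).card ≤ (2 * N + 1) ^ (r - 1) := by
    intro p
    by_cases hp : p.1 = p.2
    · rw [Finset.filter_false_of_mem (fun h _ hh => hh.1 hp), Finset.card_empty]
      exact Nat.zero_le _
    · obtain ⟨l, hl⟩ := hnd _ _ hp
      refine bad_card N (B2 p) ?_ l ?_
      · intro x y hx hy
        refine ⟨hp, ?_⟩
        rw [chi_sub ht, chi_sub ht, hx.2, hy.2]
      · intro q hq h
        have h1 := h.2
        rw [chi_single, chi_single] at h1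
        obtain ⟨k, hk | hk⟩ := Int.eq_nat_or_neg q
        · rw [hk, zpow_natCast, zpow_natCast] at h1
          exact hl k (Nat.pos_of_ne_zero (fun h0 => hq (by rw [hk, h0]; rfl))) h1
        · rw [hk, zpow_neg, zpow_neg, zpow_natCast, zpow_natCast] at h1
          exact hl k (Nat.pos_of_ne_zero (fun h0 => hq (by rw [hk, h0]; rfl))) (inv_inj.mp h1)
  have hBc : ((sbox r N).filter Bad).card ≤ b * (2 * N + 1) ^ (r - 1) := by
    have h1 : (sbox r N).filter Bad ⊆ (sbox r N).filter B0 ∪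
        ((Finset.univ : Finset (Fin m)).biUnion (fun j => (sbox r N).filter (B1 j)) ∪
          (Finset.univ : Finset (Fin m × Fin m)).biUnion (fun p => (sbox r N).filter (B2 p))) := by
      intro h hh
      rw [Finset.mem_filter] at hh
      rw [Finset.mem_union, Finset.mem_union, Finset.mem_filter, Finset.mem_biUnion,
        Finset.mem_biUnion]
      rcases (hBad h).mp hh.2 with h1 | ⟨j, h1⟩ | ⟨p, h1⟩
      · exact Or.inl ⟨hh.1, h1⟩
      · exact Or.inr (Or.inl ⟨j, Finset.mem_univ _, Finset.mem_filter.mpr ⟨hh.1, h1⟩⟩)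
      · exact Or.inr (Or.inr ⟨p, Finset.mem_univ _, Finset.mem_filter.mpr ⟨hh.1, h1⟩⟩)
    refine (Finset.card_le_card h1).trans ((Finset.card_union_le _ _).trans ?_)
    have h2 := Finset.card_union_le
      ((Finset.univ : Finset (Fin m)).biUnion (fun j => (sbox r N).filter (B1 j)))
      ((Finset.univ : Finset (Fin m × Fin m)).biUnion (fun p => (sbox r N).filter (B2 p)))
    have h3 : ((Finset.univ : Finset (Fin m)).biUnion (fun j => (sbox r N).filter (B1 j))).card ≤
        m * (2 * N + 1) ^ (r - 1) := by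
      refine Finset.card_biUnion_le.trans ?_
      refine (Finset.sum_le_sum fun j _ => c1 j).trans ?_
      rw [Finset.sum_const, Finset.card_univ, Fintype.card_fin, smul_eq_mul]
    have h4 : ((Finset.univ : Finset (Fin m × Fin m)).biUnion
        (fun p => (sbox r N).filter (B2 p))).card ≤ m * m * (2 * N + 1) ^ (r - 1) := by
      refine Finset.card_biUnion_le.trans ?_
      refine (Finset.sum_le_sum fun p _ => c2 p).trans ?_
      rw [Finset.sum_const, Finset.card_univ, Fintype.card_prod, Fintype.card_fin, smul_eq_mul]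
    have h5 : b * (2 * N + 1) ^ (r - 1) = (2 * N + 1) ^ (r - 1) + (m * (2 * N + 1) ^ (r - 1) +
        m * m * (2 * N + 1) ^ (r - 1)) := by
      rw [hb]; ring
    rw [h5]
    omega
  obtain ⟨a, h, hgood, hcube⟩ := cube hr hN Bad b hBc _ le_rfl (KK m D)
    ((box r N).filter fun n => EP t ω P n ∈ Lt) (Finset.filter_subset _ _) hcon.le
  apply hnt
  have key := cube_thm hyp_lt (m := m) (D := D) (k := KK m D) le_rfl (chi t) (chi_zero t)
    (chi_add ht) (chi_ne ht) (lin ω) (fun g => alg_sum hω g) al (fun j hj g => by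
      rw [← mem_QA]
      exact prod_mem fun l _ => zpow_mem (mem_QA.mpr (hj l)) _) P hP a h
    (fun i hi h0 => hgood i hi ((hBad _).mpr (Or.inl h0)))
    (fun i hi j hj halg => hgood i hi ((hBad _).mpr (Or.inr (Or.inl ⟨j, hj, halg⟩))))
    (fun i hi j j' hjj he => hgood i hi ((hBad _).mpr (Or.inr (Or.inr ⟨(j, j'), hjj, he⟩))))
    (fun T hT => (Finset.mem_filter.mp (hcube T hT)).2)
  intro j
  refine ⟨fun hj => key.2 j hj, fun hj => key.1 j ?_⟩
  intro hj'
  obtain ⟨l, hl⟩ := hj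
  exact hl (hj' l)

end lattice

end Pool.Agent.D0H30.DE
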