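import Pool.Agent.D0H30.DE.Count

/-!
# Hilbert cubes in dense sets of lattice points, with steps outside a small bad set
-/

set_option autoImplicit false

namespace Pool.Agent.D0H30.DE

/-- the symmetric box -/
noncomputable def sbox (r N : ℕ) : Finset (Fin r → ℤ) :=
  Fintype.piFinset fun _ => Finset.Icc (-(N : ℤ)) N

theorem sbox_card (r N : ℕ) : (sbox r N).card = (2 * N + 1) ^ r := by
  rw [sbox, Fintype.card_piFinset, Finset.prod_const, Int.card_Icc, Finset.card_univ,
    Fintype.card_fin]
  congr 1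
  omega

theorem pairs_le {r N : ℕ} (A : Finset (Fin r → ℤ)) (hA : A ⊆ box r N) :
    A.card ^ 2 ≤ ∑ h ∈ sbox r N, (A.filter fun g => g + h ∈ A).card := by
  classical
  have h1 : (A ×ˢ A).card = ∑ h ∈ sbox r N, ((A ×ˢ A).filter (fun p => p.2 - p.1 = h)).card :=
    Finset.card_eq_sum_card_fiberwise (fun p hp => by
      rw [Finset.mem_coe, Finset.mem_product] at hp
      have h1 := hA hp.1
      have h2 := hA hp.2
      rw [box, Fintype.mem_piFinset] at h1 h2
      rw [Finset.mem_coe, sbox, Fintype.mem_piFinset]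
      intro i
      have e1 := Finset.mem_Icc.mp (h1 i)
      have e2 := Finset.mem_Icc.mp (h2 i)
      rw [Finset.mem_Icc, Pi.sub_apply]
      omega)
  rw [pow_two, ← Finset.card_product, h1]
  apply Finset.sum_le_sum
  intro h _
  refine Finset.card_le_card_of_injOn (fun p => p.1) ?_ ?_
  · intro p hp
    simp only [Finset.coe_filter, Finset.mem_product, Set.mem_ofPred_eq] at hp ⊢
    refine ⟨hp.1.1, ?_⟩
    rw [← hp.2]
    have : p.1 + (p.2 - p.1) = p.2 := by abel
    rw [this]
    exact hp.1.2
  · intro p hp q hq hpq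
    simp only [Finset.coe_filter, Finset.mem_product, Set.mem_ofPred_eq] at hp hq
    have hpq' : p.1 = q.1 := hpq
    refine Prod.ext hpq' ?_
    have := hp.2.trans hq.2.symm
    rw [hpq'] at this
    exact sub_left_injective this

open Classical in
/-- **Cube lemma** -/
theorem cube {r N : ℕ} (hr : 1 ≤ r) (hN : 1 ≤ N) (Bad : (Fin r → ℤ) → Prop) (b : ℕ)
    (hBad : ((sbox r N).filter Bad).card ≤ b * (2 * N + 1) ^ (r - 1)) (C : ℝ)
    (hC : 4 * 3 ^ r * ((b : ℝ) + 1) ≤ C) (k : ℕ) :
    ∀ A ⊆ box r N, C * (N : ℝ) ^ r * (N : ℝ) ^ (-(1 / 2 : ℝ) ^ k) ≤ A.card →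
      ∃ (a : Fin r → ℤ) (h : ℕ → Fin r → ℤ), (∀ i < k, ¬ Bad (h i)) ∧
        ∀ T ⊆ Finset.range k, a + ∑ i ∈ T, h i ∈ A := by
  have hNr : (1 : ℝ) ≤ N := by exact_mod_cast hN
  have hN0 : (0 : ℝ) < N := by linarith
  have hC0 : 0 < C := by
    have : 0 < 4 * 3 ^ r * ((b : ℝ) + 1) := by positivity
    linarith
  induction k with
  | zero =>
    intro A _ hc
    have h1 : 0 < C * (N : ℝ) ^ r * (N : ℝ) ^ (-(1 / 2 : ℝ) ^ 0) := by positivity
    have h2 : (0 : ℝ) < A.card := lt_of_lt_of_le h1 hc
    have h3 : 0 < A.card := by exact_mod_cast h2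
    obtain ⟨a, ha⟩ := Finset.card_pos.mp h3
    refine ⟨a, fun _ => 0, fun i hi => absurd hi (Nat.not_lt_zero i), fun T hT => ?_⟩
    have : T = ∅ := by
      rw [Finset.range_zero] at hT
      exact Finset.subset_empty.mp hT
    rw [this, Finset.sum_empty, add_zero]
    exact ha
  | succ k ih =>
    intro A hA hc
    set Q : ℝ := (N : ℝ) ^ r with hQ
    set δ : ℝ := (N : ℝ) ^ (-(1 / 2 : ℝ) ^ k) with hδ
    set δ' : ℝ := (N : ℝ) ^ (-(1 / 2 : ℝ) ^ (k + 1)) with hδ'
    have hδδ : δ' ^ 2 = δ := by
      rw [hδ', hδ, ← Real.rpow_natCast, ← Real.rpow_mul hN0.le]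
      congr 1
      push_cast
      rw [pow_succ]
      ring
    have hδ0 : 0 < δ' := by rw [hδ']; positivity
    have hδ00 : 0 < δ := by rw [hδ]; positivity
    have hQ0 : 0 < Q := by rw [hQ]; positivity
    have hδN : 1 / N ≤ δ' := by
      have h1 : (N : ℝ) ^ (-1 : ℝ) ≤ δ' := by
        rw [hδ']
        apply Real.rpow_le_rpow_of_exponent_le hNr
        have : (1 / 2 : ℝ) ^ (k + 1) ≤ 1 := pow_le_one₀ (by norm_num) (by norm_num)
        linarith
      rwa [Real.rpow_neg_one, ← one_div] at h1
    obtain ⟨h, hh, hhB, hhc⟩ : ∃ h ∈ sbox r N, ¬ Bad h ∧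
        C * Q * δ ≤ ((A.filter fun g => g + h ∈ A).card : ℝ) := by
      by_contra hcon
      push Not at hcon
      have h1 := pairs_le A hA
      rw [← Finset.sum_filter_add_sum_filter_not (sbox r N) Bad] at h1
      have h2 : ∑ h ∈ (sbox r N).filter Bad, (A.filter fun g => g + h ∈ A).card ≤
          (b * (2 * N + 1) ^ (r - 1)) * A.card := by
        calc ∑ h ∈ (sbox r N).filter Bad, (A.filter fun g => g + h ∈ A).card
            ≤ ∑ _h ∈ (sbox r N).filter Bad, A.card :=
              Finset.sum_le_sum fun h _ => Finset.card_filter_le _ _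
          _ = ((sbox r N).filter Bad).card * A.card := by rw [Finset.sum_const, smul_eq_mul]
          _ ≤ _ := Nat.mul_le_mul_right _ hBad
      have h3 : ∑ h ∈ (sbox r N).filter (fun h => ¬ Bad h),
          ((A.filter fun g => g + h ∈ A).card : ℝ) ≤ (3 ^ r * Q) * (C * Q * δ) := by
        calc ∑ h ∈ (sbox r N).filter (fun h => ¬ Bad h),
            ((A.filter fun g => g + h ∈ A).card : ℝ)
            ≤ ∑ _h ∈ (sbox r N).filter (fun h => ¬ Bad h), C * Q * δ := by
              apply Finset.sum_le_sum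
              intro h hh
              rw [Finset.mem_filter] at hh
              exact (hcon h hh.1 hh.2).le
          _ = (((sbox r N).filter (fun h => ¬ Bad h)).card : ℝ) * (C * Q * δ) := by
              rw [Finset.sum_const, nsmul_eq_mul]
          _ ≤ (3 ^ r * Q) * (C * Q * δ) := by
              apply mul_le_mul_of_nonneg_right _ (by positivity)
              have h4 : ((sbox r N).filter (fun h => ¬ Bad h)).card ≤ (2 * N + 1) ^ r :=
                (Finset.card_filter_le _ _).trans (sbox_card r N).le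
              have h5 : (2 * N + 1) ^ r ≤ (3 * N) ^ r := Nat.pow_le_pow_left (by omega) r
              have h6 : (((sbox r N).filter (fun h => ¬ Bad h)).card : ℝ) ≤ ((3 * N) ^ r : ℕ) := by
                exact_mod_cast h4.trans h5
              rw [hQ, ← mul_pow]
              exact_mod_cast h6
      -- the main inequality
      set x : ℝ := (A.card : ℝ) with hx
      have h4 : x ^ 2 ≤ (b * (2 * N + 1) ^ (r - 1) : ℕ) * x + (3 ^ r * Q) * (C * Q * δ) := by
        have h5 : x ^ 2 ≤ ((∑ h ∈ (sbox r N).filter Bad, (A.filter fun g => g + h ∈ A).card +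
            ∑ h ∈ (sbox r N).filter (fun h => ¬ Bad h),
              (A.filter fun g => g + h ∈ A).card : ℕ) : ℝ) := by
          rw [hx]
          exact_mod_cast h1
        rw [Nat.cast_add] at h5
        have h6 : ((∑ h ∈ (sbox r N).filter Bad, (A.filter fun g => g + h ∈ A).card : ℕ) : ℝ) ≤
            (b * (2 * N + 1) ^ (r - 1) : ℕ) * x := by
          rw [hx]
          exact_mod_cast h2
        have h7 : ((∑ h ∈ (sbox r N).filter (fun h => ¬ Bad h),
            (A.filter fun g => g + h ∈ A).card : ℕ) : ℝ) ≤ (3 ^ r * Q) * (C * Q * δ) := by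
          rw [Nat.cast_sum]
          exact h3
        linarith
      have h5 : ((b * (2 * N + 1) ^ (r - 1) : ℕ) : ℝ) ≤ b * 3 ^ r * (Q / N) := by
        have e1 : (2 * N + 1) ^ (r - 1) ≤ (3 * N) ^ (r - 1) := Nat.pow_le_pow_left (by omega) _
        have e2 : (((2 * N + 1) ^ (r - 1) : ℕ) : ℝ) ≤ 3 ^ (r - 1) * (N : ℝ) ^ (r - 1) := by
          rw [← mul_pow]
          exact_mod_cast e1
        have e3 : (N : ℝ) ^ (r - 1) = Q / N := by
          rw [hQ, eq_div_iff hN0.ne', ← pow_succ, Nat.sub_add_cancel hr]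
        have e4 : (3 : ℝ) ^ (r - 1) ≤ 3 ^ r := pow_le_pow_right₀ (by norm_num) (Nat.sub_le _ _)
        rw [e3] at e2
        have hQN : 0 < Q / N := by positivity
        have e5 : (3 : ℝ) ^ (r - 1) * (Q / N) ≤ 3 ^ r * (Q / N) :=
          mul_le_mul_of_nonneg_right e4 hQN.le
        rw [Nat.cast_mul]
        calc (b : ℝ) * (((2 * N + 1) ^ (r - 1) : ℕ) : ℝ) ≤ b * (3 ^ r * (Q / N)) :=
              mul_le_mul_of_nonneg_left (e2.trans e5) (Nat.cast_nonneg b)
          _ = b * 3 ^ r * (Q / N) := by ring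
      have hxc : C * Q * δ' ≤ x := hc
      have hx0 : 0 < x := lt_of_lt_of_le (by positivity) hxc
      have h6 : (b : ℝ) * 3 ^ r * (Q / N) ≤ x / 4 := by
        have e1 : C * (Q / N) ≤ x := by
          refine le_trans ?_ hxc
          rw [mul_assoc]
          apply mul_le_mul_of_nonneg_left _ hC0.le
          calc Q / N = Q * (1 / N) := by ring
            _ ≤ Q * δ' := mul_le_mul_of_nonneg_left hδN hQ0.le
        have hQN : 0 < Q / N := by positivity
        have e2 : 4 * 3 ^ r * ((b : ℝ) + 1) * (Q / N) ≤ x :=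
          (mul_le_mul_of_nonneg_right hC hQN.le).trans e1
        have e3 : (0 : ℝ) ≤ 3 ^ r * (Q / N) := by positivity
        nlinarith
      have h7 : (3 ^ r * Q) * (C * Q * δ) ≤ x ^ 2 / 4 := by
        have e1 : (C * Q * δ') ^ 2 ≤ x ^ 2 := pow_le_pow_left₀ (by positivity) hxc 2
        have e2 : (C * Q * δ') ^ 2 = C * (C * Q ^ 2 * δ) := by
          rw [← hδδ]; ring
        have e3 : 4 * 3 ^ r ≤ C := by
          refine le_trans ?_ hC
          have : (0 : ℝ) ≤ 4 * 3 ^ r * b := by positivity
          linarith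
        have e4 : 4 * 3 ^ r * (C * Q ^ 2 * δ) ≤ C * (C * Q ^ 2 * δ) :=
          mul_le_mul_of_nonneg_right e3 (by positivity)
        calc (3 ^ r * Q) * (C * Q * δ) = (4 * 3 ^ r * (C * Q ^ 2 * δ)) / 4 := by ring
          _ ≤ x ^ 2 / 4 := by
            apply div_le_div_of_nonneg_right _ (by norm_num)
            linarith
      have h8 : ((b * (2 * N + 1) ^ (r - 1) : ℕ) : ℝ) * x ≤ x / 4 * x :=
        mul_le_mul_of_nonneg_right (h5.trans h6) hx0.le
      nlinarith
    obtain ⟨a, h', hB', hcube⟩ := ih (A.filter fun g => g + h ∈ A)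
      ((Finset.filter_subset _ _).trans hA) hhc
    refine ⟨a, Function.update h' k h, ?_, ?_⟩
    · intro i hi
      by_cases hik : i = k
      · rw [hik, Function.update_self]
        exact hhB
      · rw [Function.update_of_ne hik]
        exact hB' i (by omega)
    · intro T hT
      have hsum : ∀ S ⊆ Finset.range k, ∑ i ∈ S, Function.update h' k h i = ∑ i ∈ S, h' i := by
        intro S hS
        apply Finset.sum_congr rfl
        intro i hi
        have := Finset.mem_range.mp (hS hi)
        rw [Function.update_of_ne (by omega)]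
      by_cases hkT : k ∈ T
      · have hTe : T.erase k ⊆ Finset.range k := by
          intro i hi
          rw [Finset.mem_erase] at hi
          have := Finset.mem_range.mp (hT hi.2)
          rw [Finset.mem_range]
          omega
        have h1 := (Finset.mem_filter.mp (hcube (T.erase k) hTe)).2
        rw [← Finset.add_sum_erase T _ hkT, Function.update_self, hsum _ hTe]
        have h2 : a + (h + ∑ i ∈ T.erase k, h' i) = a + ∑ i ∈ T.erase k, h' i + h := by abel
        rw [h2]
        exact h1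
      · have hTk : T ⊆ Finset.range k := by
          intro i hi
          have := Finset.mem_range.mp (hT hi)
          have hne : i ≠ k := fun h => hkT (h ▸ hi)
          rw [Finset.mem_range]
          omega
        rw [hsum T hTk]
        exact (Finset.mem_filter.mp (hcube T hTk)).1

/-- a subgroup-like set without multiples of a unit vector is small -/
theorem bad_card {r : ℕ} (N : ℕ) (Γ : (Fin r → ℤ) → Prop) [DecidablePred Γ]
    (hsub : ∀ x y, Γ x → Γ y → Γ (x - y)) (l : Fin r)
    (hl : ∀ q : ℤ, q ≠ 0 → ¬ Γ (Pi.single l q)) :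
    ((sbox r N).filter Γ).card ≤ (2 * N + 1) ^ (r - 1) := by
  classical
  obtain ⟨r', rfl⟩ : ∃ r', r = r' + 1 := by
    rcases r with _ | r'
    · exact l.elim0
    · exact ⟨r', rfl⟩
  rw [Nat.add_sub_cancel, ← sbox_card r' N]
  refine Finset.card_le_card_of_injOn (fun n j => n (l.succAbove j)) ?_ ?_
  · intro n hn
    rw [Finset.mem_coe, Finset.mem_filter, sbox, Fintype.mem_piFinset] at hn
    rw [Finset.mem_coe, sbox, Fintype.mem_piFinset]
    exact fun j => hn.1 _
  · intro n hn n' hn' hnn
    rw [Finset.mem_coe, Finset.mem_filter] at hn hn'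
    have h1 := hsub _ _ hn.2 hn'.2
    have h2 : n - n' = Pi.single l (n l - n' l) := by
      funext i
      by_cases hi : i = l
      · subst hi
        rw [Pi.sub_apply, Pi.single_eq_same]
      · obtain ⟨j, rfl⟩ := Fin.exists_succAbove_eq hi
        rw [Pi.single_eq_of_ne hi, Pi.sub_apply, sub_eq_zero]
        exact congrFun hnn j
    by_contra hne
    rw [h2] at h1
    apply hl _ _ h1
    intro h3
    apply hne
    rw [← sub_eq_zero, h2, h3, Pi.single_zero]

end Pool.Agent.D0H30.DE
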