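import Pool.Agent.H301R2.SSE.Nine
import Pool.Agent.H340R2.LW

/-!
# Strong six exponentials and unique factorisation of linear forms
-/

set_option autoImplicit false

namespace Pool.Agent.D0H30.DE

open Pool.Agent.H301R2.SSE Pool.Agent.H301R2.Nine Polynomial

theorem tr_QB {τ : ℂ} (hτ : Transcendental ℚ τ) : Transcendental QB τ := by
  intro h
  haveI : Algebra.IsAlgebraic ℚ QB := algebraicClosure.isAlgebraic ℚ ℂ
  exact hτ (h.restrictScalars ℚ)

theorem alg_div {a b : ℂ} (ha : IsAlgebraic ℚ a) (hb : IsAlgebraic ℚ b) :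
    IsAlgebraic ℚ (a / b) := by
  rw [div_eq_mul_inv]
  exact ha.mul hb.inv

/-- Linear forms `γ_j (τ - r_j)` with different `r_j` are multiplicatively independent modulo
algebraic numbers: unique factorisation. -/
theorem mult_indep {k : ℕ} (τ : ℂ) (hτ : Transcendental ℚ τ) (γ r : Fin k → QB)
    (hγ : ∀ j, γ j ≠ 0) (hr : Function.Injective r)
    (a b : Fin k → ℕ) (hab : ∀ j, a j = 0 ∨ b j = 0) (ξ : QB) (hξ0 : ξ ≠ 0)
    (h : ∏ j, ((γ j : ℂ) * (τ - r j)) ^ a j = ξ * ∏ j, ((γ j : ℂ) * (τ - r j)) ^ b j) :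
    ∀ j, a j = 0 := by
  classical
  have hP : (∏ j, (C (γ j) * (X - C (r j))) ^ a j - C ξ * ∏ j, (C (γ j) * (X - C (r j))) ^ b j
      : QB[X]) = 0 := by
    by_contra hne
    apply tr_QB hτ
    refine ⟨_, hne, ?_⟩
    rw [map_sub, map_mul, map_prod, map_prod, aeval_C]
    simp only [map_pow, map_mul, map_sub, aeval_C, aeval_X]
    rw [sub_eq_zero]
    exact h
  intro j0
  by_contra hj0
  have hb0 : b j0 = 0 := (hab j0).resolve_left hj0
  have h1 := congrArg (eval (r j0)) hP
  rw [eval_sub, eval_mul, eval_prod, eval_prod, eval_C, eval_zero] at h1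
  simp only [eval_pow, eval_mul, eval_sub, eval_C, eval_X] at h1
  rw [Finset.prod_eq_zero (Finset.mem_univ j0) (by rw [sub_self, mul_zero, zero_pow hj0]),
    zero_sub, neg_eq_zero] at h1
  rcases mul_eq_zero.mp h1 with h2 | h2
  · exact hξ0 h2
  · rw [Finset.prod_eq_zero_iff] at h2
    obtain ⟨j, -, hj⟩ := h2
    by_cases hjj : j = j0
    · subst hjj
      rw [hb0, pow_zero] at hj
      exact one_ne_zero hj
    · rcases mul_eq_zero.mp (eq_zero_of_pow_eq_zero hj) with h4 | h4
      · exact hγ j h4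
      · exact hjj (hr (sub_eq_zero.mp h4)).symm

/-- three values in the space stable under a transcendental factor are dependent -/
theorem three {v x u0 u1 u2 : ℂ} (hv : v ≠ 0) (hx : Transcendental ℚ x)
    (h0 : v * u0 ∈ Lt) (h1 : v * u1 ∈ Lt) (h2 : v * u2 ∈ Lt)
    (k0 : v * (x * u0) ∈ Lt) (k1 : v * (x * u1) ∈ Lt) (k2 : v * (x * u2) ∈ Lt) :
    ∃ a b c : ℂ, IsAlgebraic ℚ a ∧ IsAlgebraic ℚ b ∧ IsAlgebraic ℚ c ∧ ¬ (a = 0 ∧ b = 0 ∧ c = 0) ∧
      a * u0 + b * u1 + c * u2 = 0 := by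
  by_contra hcon
  push Not at hcon
  refine six' 1 x (v * u0) (v * u1) (v * u2) ?_ ?_ (by rwa [one_mul]) (by rwa [one_mul])
    (by rwa [one_mul]) ?_ ?_ ?_
  · intro a b ha hb hab
    by_cases hb0 : b = 0
    · subst hb0
      exact ⟨by simpa using hab, rfl⟩
    · exfalso
      apply hx
      have : x = -a / b := by
        field_simp
        linear_combination hab
      rw [this]
      exact alg_div ha.neg hb
  · intro a b c ha hb hc hab
    have h3 : a * u0 + b * u1 + c * u2 = 0 := by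
      apply (mul_eq_zero.mp _).resolve_left hv
      rw [← hab]; ring
    by_contra hne
    exact hcon a b c ha hb hc (fun h4 h5 h6 => hne ⟨h4, h5, h6⟩) h3
  · have : x * (v * u0) = v * (x * u0) := by ring
    rw [this]; exact k0
  · have : x * (v * u1) = v * (x * u1) := by ring
    rw [this]; exact k1
  · have : x * (v * u2) = v * (x * u2) := by ring
    rw [this]; exact k2

theorem three' {v x u0 u1 u2 : ℂ} (hv : v ≠ 0) (hx : Transcendental ℚ x) (h00 : u0 ≠ 0)
    (h0 : v * u0 ∈ Lt) (h1 : v * u1 ∈ Lt) (h2 : v * u2 ∈ Lt)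
    (k0 : v * (x * u0) ∈ Lt) (k1 : v * (x * u1) ∈ Lt) (k2 : v * (x * u2) ∈ Lt)
    (t1 : Transcendental ℚ (u1 / u0)) (t2 : Transcendental ℚ (u2 / u0)) :
    ∃ γ r : QB, γ ≠ 0 ∧ u2 / u0 = (γ : ℂ) * (u1 / u0 - r) := by
  obtain ⟨a, b, c, ha, hb, hc, hne, h⟩ := three hv hx h0 h1 h2 k0 k1 k2
  have hc0 : c ≠ 0 := by
    rintro rfl
    have hb0 : b = 0 := by
      by_contra hb0
      apply t1
      have : u1 / u0 = -a / b := by
        field_simp
        linear_combination h
      rw [this]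
      exact alg_div ha.neg hb
    subst hb0
    apply hne
    refine ⟨?_, rfl, rfl⟩
    have : a * u0 = 0 := by linear_combination h
    exact (mul_eq_zero.mp this).resolve_right h00
  have hb0 : b ≠ 0 := by
    rintro rfl
    apply t2
    have : u2 / u0 = -a / c := by
      field_simp
      linear_combination h
    rw [this]
    exact alg_div ha.neg hc
  have hA : IsAlgebraic ℚ (-b / c) := alg_div hb.neg hc
  have hB : IsAlgebraic ℚ (-a / b) := alg_div ha.neg hb
  refine ⟨⟨-b / c, mem_QB.mpr hA⟩, ⟨-a / b, mem_QB.mpr hB⟩, ?_, ?_⟩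
  · intro h3
    have h4 : (-b / c : ℂ) = 0 := congrArg Subtype.val h3
    exact (div_ne_zero (neg_ne_zero.mpr hb0) hc0) h4
  · change u2 / u0 = (-b / c) * (u1 / u0 - (-a / b))
    field_simp
    linear_combination h

/-- **The pencil lemma.** -/
theorem pencil {k : ℕ} (v : ℂ) (hv : v ≠ 0) (x : ℂ) (hx : Transcendental ℚ x)
    (u : Fin (k + 1) → ℂ) (hu0 : ∀ j, u j ≠ 0)
    (h1 : ∀ j, v * u j ∈ Lt) (h2 : ∀ j, v * (x * u j) ∈ Lt)
    (hd : ∀ i j, i ≠ j → Transcendental ℚ (u i / u j)) (c : Fin k → ℤ)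
    (hc : IsAlgebraic ℚ (∏ j, (u j.succ / u 0) ^ c j)) : ∀ j, c j = 0 := by
  classical
  rcases Nat.eq_zero_or_pos k with hk | hk
  · subst hk
    exact fun j => j.elim0
  set j1 : Fin k := ⟨0, hk⟩ with hj1
  set τ : ℂ := u j1.succ / u 0 with hτ
  have hτt : Transcendental ℚ τ := hd _ _ (Fin.succ_ne_zero _)
  have hex : ∀ j : Fin k, ∃ γ r : QB, γ ≠ 0 ∧ u j.succ / u 0 = (γ : ℂ) * (τ - r) := by
    intro j
    by_cases hj : j = j1
    · subst hj
      refine ⟨1, 0, one_ne_zero, ?_⟩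
      rw [← hτ]
      push_cast
      ring
    · exact three' hv hx (hu0 0) (h1 _) (h1 _) (h1 _) (h2 _) (h2 _) (h2 _) hτt
        (hd _ _ (Fin.succ_ne_zero _))
  choose γ r hγ hur using hex
  have hinj : Function.Injective r := by
    intro i j hij
    by_contra hne
    have hne' : i.succ ≠ j.succ := fun h => hne (Fin.succ_injective _ h)
    apply hd _ _ hne'
    have e1 : u i.succ / u j.succ = (u i.succ / u 0) / (u j.succ / u 0) := by
      rw [div_div_div_cancel_right₀ (hu0 0)]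
    have hs : τ - (r j : ℂ) ≠ 0 := by
      intro h0
      apply hτt
      rw [sub_eq_zero.mp h0]
      exact mem_QB.mp (r j).2
    rw [e1, hur, hur, hij, mul_div_mul_right _ _ hs]
    exact alg_div (mem_QB.mp (γ i).2) (mem_QB.mp (γ j).2)
  -- positive and negative parts
  have key : ∀ e : Fin k → ℤ, IsAlgebraic ℚ (∏ j, (u j.succ / u 0) ^ e j) → ∀ j, e j ≤ 0 := by
    intro e he j
    have hne0 : ∀ j : Fin k, u j.succ / u 0 ≠ 0 := fun j => div_ne_zero (hu0 _) (hu0 _)
    set ξ : ℂ := ∏ j, (u j.succ / u 0) ^ e j with hξ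
    have hξ0 : ξ ≠ 0 := Finset.prod_ne_zero_iff.mpr fun j _ => zpow_ne_zero _ (hne0 j)
    have hp : ∏ j, (u j.succ / u 0) ^ (e j).toNat = ξ * ∏ j, (u j.succ / u 0) ^ (-(e j)).toNat := by
      rw [hξ, ← Finset.prod_mul_distrib]
      apply Finset.prod_congr rfl
      intro j _
      rcases le_total 0 (e j) with h0 | h0
      · have e1 : (-(e j)).toNat = 0 := by omega
        rw [e1, pow_zero, mul_one]
        conv_rhs => rw [← Int.toNat_of_nonneg h0]
        rw [zpow_natCast]
      · have e1 : (e j).toNat = 0 := by omega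
        rw [e1, pow_zero]
        have e2 : ((-(e j)).toNat : ℤ) = -(e j) := Int.toNat_of_nonneg (by omega)
        have e3 : (u j.succ / u 0) ^ (-(e j)).toNat = (u j.succ / u 0) ^ (-(e j)) := by
          rw [← zpow_natCast, e2]
        rw [e3, ← zpow_add₀ (hne0 j), add_neg_cancel, zpow_zero]
    simp only [hur] at hp
    have h3 := mult_indep τ hτt γ r hγ hinj (fun j => (e j).toNat) (fun j => (-(e j)).toNat)
      (fun j => by omega) ⟨ξ, mem_QB.mpr he⟩ (fun h0 => hξ0 (congrArg Subtype.val h0)) hp j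
    have h4 : (e j).toNat = 0 := h3
    omega
  intro j
  have h3 := key c hc j
  have h4 := key (fun j => -(c j)) (by
    have : ∏ j, (u j.succ / u 0) ^ (-(c j)) = (∏ j, (u j.succ / u 0) ^ c j)⁻¹ := by
      rw [← Finset.prod_inv_distrib]
      exact Finset.prod_congr rfl fun j _ => zpow_neg _ _
    rw [this]
    exact hc.inv) j
  omega

end Pool.Agent.D0H30.DE
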